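import Pool.Agent.X298.HT.Defs

/-!
# Total order of vanishing of a space of forms: definitions
-/

set_option autoImplicit false

open Filter Topology
open IsDedekindDomain NumberField

namespace Pool.Agent.X298.TR

open Pool.Agent.X298.ST Pool.Agent.X298.II Pool.Agent.X298.HT

variable {F : Type} [Field F] [NumberField F] {S : Set (HeightOneSpectrum (𝓞 F))} {n : ℕ}

/-- The coefficients of `log L_S(s, σ)`: `tr σ_v^k`, `v = x.1`, `k = x.2 + 1`. -/
noncomputable def cf (σ : Param S n) (x : Places S × ℕ) : ℂ := σ.pw x.1 (x.2 + 1)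

/-- The term `heckeTr_v(k) q_v^{-k/2} e^{iγu} / (k Γ(1 + u))`, `u = k log q_v / T`. -/
noncomputable def rTerm {I : Type} [Fintype I] (σ : I → Param S n) (γ T : ℝ) (x : Places S × ℕ) : ℂ :=
  heckeTr σ x.1 (x.2 + 1) * ((nrm x.1 : ℂ) ^ (-(1 / 2 : ℂ))) ^ (x.2 + 1) *
      Complex.exp ((γ * ((x.2 + 1) * Real.log (nrm x.1) / T) : ℝ) * Complex.I) /
    (((x.2 + 1) * Real.Gamma (1 + (x.2 + 1) * Real.log (nrm x.1) / T) : ℝ) : ℂ)

/-- the sum of the terms over `v ∉ S`, `k ≥ 1` -/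
noncomputable def rSum {I : Type} [Fintype I] (σ : I → Param S n) (γ T : ℝ) : ℂ := ∑' x, rTerm σ γ T x

end Pool.Agent.X298.TR
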