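import Pool.Agent.X298.TR.Defs
import Pool.Agent.X298.GP.Main

/-!
# Total order of vanishing of a space of forms
-/

set_option autoImplicit false

open Filter Topology Asymptotics
open IsDedekindDomain NumberField

namespace Pool.Agent.X298.TR

open Pool.Agent.X298.ST Pool.Agent.X298.II Pool.Agent.X298.HT

variable {F : Type} [Field F] [NumberField F] {S : Set (HeightOneSpectrum (𝓞 F))} {n : ℕ}
  {I : Type} [Fintype I]

/-- the trivial parameters -/
noncomputable def triv (S : Set (HeightOneSpectrum (𝓞 F))) : Param S 1 := ⟨fun _ _ => 1, by simp⟩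

omit [NumberField F] in
theorem triv_pw (v : Places S) (k : ℕ) : (triv S).pw v k = 1 := by
  unfold Param.pw triv
  simp

theorem rTerm_eq (σ : I → Param S n) (γ T : ℝ) (x : Places S × ℕ) :
    rTerm σ γ T x = Pool.Agent.X298.GP.gTerm (triv S) σ γ T x := by
  unfold rTerm Pool.Agent.X298.GP.gTerm
  rw [triv_pw, one_mul]

theorem rSum_eq (σ : I → Param S n) (γ T : ℝ) : rSum σ γ T = Pool.Agent.X298.GP.gSum (triv S) σ γ T :=
  tsum_congr fun x => rTerm_eq σ γ T x

omit [NumberField F] in
theorem cf_eq (σ : Param S n) : cf σ = Pool.Agent.X298.GP.rs (triv S) σ := by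
  funext x
  unfold cf Pool.Agent.X298.GP.rs
  rw [triv_pw, one_mul]

theorem r_summable (σ : I → Param S n) (γ : ℝ) {T : ℝ} (hT : 0 < T) : Summable fun x => ‖rTerm σ γ T x‖ :=
  (Pool.Agent.X298.GP.g_summable (triv S) σ γ hT).congr fun x => by rw [rTerm_eq]

theorem main (σ : I → Param S n) (Λ : I → ℂ → ℂ) (hc : ∀ i, IsCont (cf (σ i)) (1 / 2) (Λ i))
    (ha : ∀ i, AnalyticAt ℂ (Λ i) (1 / 2)) {γ : ℝ} (hγ : Real.pi / 2 < γ) :
    ∃ (m : I → ℕ) (r : ℂ), (∀ i, meromorphicOrderAt (Λ i) (1 / 2) = ((m i : ℤ) : WithTop ℤ)) ∧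
      (fun T : ℝ => rSum σ γ T - (r - (∑ i, m i : ℕ) * (Real.log T - Lambda γ))) =O[atTop] (fun T : ℝ => 1 / T) := by
  obtain ⟨m, r, h1, -, -, h4⟩ := Pool.Agent.X298.GP.main (triv S) σ Λ (fun i => by rw [← cf_eq]; exact hc i) ha hγ
  refine ⟨m, r, h1, ?_⟩
  refine h4.congr_left fun T => ?_
  rw [rSum_eq]

/-- the arithmetic part -/
theorem comb [DecidableEq I] (m sel : I → ℕ) (O : Finset I) (hO : ∀ i, Odd (m i) ↔ i ∈ O)
    (hsel : ∀ i, m i ≤ 1 → sel i = m i) :
    2 * (Finset.univ.filter fun i => sel i ≠ m i).card + O.card ≤ ∑ i, m i ∧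
      (∑ i, m i = O.card ↔ ∀ i, m i ≤ 1) := by
  have hb : ∀ i, (if sel i ≠ m i then 2 else 0) + (if i ∈ O then 1 else 0) ≤ m i := by
    intro i
    have h1 := hO i
    have h2 := hsel i
    by_cases hi : i ∈ O
    · have h3 : Odd (m i) := h1.mpr hi
      rw [if_pos hi]
      split_ifs with h4
      · have : ¬ m i ≤ 1 := fun h => h4 (h2 h)
        obtain ⟨k, hk⟩ := h3
        omega
      · obtain ⟨k, hk⟩ := h3
        omega
    · rw [if_neg hi]
      split_ifs with h4
      · have : ¬ m i ≤ 1 := fun h => h4 (h2 h)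
        omega
      · omega
  have hsumO : ∑ i, (if i ∈ O then 1 else 0) = O.card := by
    rw [Finset.sum_ite_mem, Finset.univ_inter, Finset.sum_const, smul_eq_mul, mul_one]
  refine ⟨?_, ?_⟩
  · have h1 := Finset.sum_le_sum (s := Finset.univ) fun i _ => hb i
    rw [Finset.sum_add_distrib, hsumO] at h1
    have h2 : ∑ i, (if sel i ≠ m i then 2 else 0) = 2 * (Finset.univ.filter fun i => sel i ≠ m i).card := by
      rw [← Finset.sum_filter, Finset.sum_const, smul_eq_mul, mul_comm]
    rw [h2] at h1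
    exact h1
  · have hle : ∀ i, (if i ∈ O then 1 else 0) ≤ m i := fun i => (Nat.le_add_left _ _).trans (hb i)
    rw [← hsumO]
    constructor
    · intro h i
      have h1 := (Finset.sum_eq_sum_iff_of_le (s := Finset.univ) fun i _ => hle i).mp h.symm i (Finset.mem_univ i)
      rw [← h1]
      split_ifs <;> omega
    · intro h
      refine Finset.sum_congr rfl fun i _ => ?_
      by_cases hi : i ∈ O
      · rw [if_pos hi]
        obtain ⟨k, hk⟩ := (hO i).mpr hi
        have := h i
        omega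
      · rw [if_neg hi]
        have h3 : ¬ Odd (m i) := fun h4 => hi ((hO i).mp h4)
        rw [Nat.not_odd_iff_even] at h3
        obtain ⟨k, hk⟩ := h3
        have := h i
        omega

end Pool.Agent.X298.TR
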